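import Pool.Agent.Helper23.CB.LatF
import Pool.Agent.Helper4.CB.STM

/-!
# CB, degree 3: the window
-/

set_option autoImplicit false

namespace Pool.Agent.Helper98.CB

open Finset Module NumberField Polynomial Pool.Agent.Helper4.CB Pool.Agent.Helper23.CB

/-- polynomials are smaller than exponentials -/
theorem exists_pow_lt (C k : ℕ) : ∃ T0 : ℕ, ∀ T : ℕ, T0 ≤ T → C * T ^ k < 2 ^ T := by
  have h := tendsto_pow_const_div_const_pow_of_one_lt k (r := (2 : ℝ)) (by norm_num)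
  have h1 : (0 : ℝ) < 1 / ((C : ℝ) + 1) := by positivity
  obtain ⟨T0, hT0⟩ := Filter.eventually_atTop.1 (h.eventually_lt_const h1)
  refine ⟨T0, fun T hT => ?_⟩
  have h2 := hT0 T hT
  rw [div_lt_div_iff₀ (by positivity) (by positivity)] at h2
  have h3 : (C : ℝ) * (T : ℝ) ^ k < 2 ^ T := by
    have h4 : (0 : ℝ) ≤ (T : ℝ) ^ k := by positivity
    nlinarith
  exact_mod_cast h3

/-- the real computation behind the count of points -/
theorem real_count (n : ℕ) (N X L M q V Z Cc Cl Cn Cf c1 : ℝ) (hN : 0 ≤ N) (hL : 0 < L)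
    (hM : 0 < M) (hLX : L ≤ X) (_hq : 0 < q) (hV : 0 < V) (hZ : 1 ≤ Z) (hCc : 0 ≤ Cc) (hCl : 0 ≤ Cl)
    (hCn : 0 ≤ Cn) (hCf : 0 ≤ Cf) (hc1 : 0 ≤ c1) (hY : X ^ n = V * Z)
    (h1 : N ≤ (2 * Cc * X / L + 1) ^ n * (2 * Cl * Cc * X * L / M + 1) ^ n)
    (h2 : V * L ^ n ≤ c1 * q) (h3 : q ≤ Cn * M ^ n) (h4 : q ≤ Cf * L ^ (3 * n)) :
    N ^ 2 ≤ c1 * Cf * ((2 * Cc + 1) ^ n * (2 ^ n * ((2 * Cl * Cc) ^ n * (Cn * c1) + 1))) ^ 2 *
      (X ^ n * Z ^ 3) := by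
  have hX : 0 < X := lt_of_lt_of_le hL hLX
  have hLn : 0 < L ^ n := pow_pos hL n
  have hMn : 0 < M ^ n := pow_pos hM n
  have hXn : 0 < X ^ n := pow_pos hX n
  -- first factor
  have f1 : (2 * Cc * X / L + 1) ^ n * L ^ n ≤ (2 * Cc + 1) ^ n * X ^ n := by
    rw [← mul_pow, ← mul_pow]
    refine pow_le_pow_left₀ (by positivity) ?_ n
    have : (2 * Cc * X / L + 1) * L = 2 * Cc * X + L := by
      field_simp
    rw [this]
    nlinarith
  -- second factor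
  have g1 : X ^ n * L ^ n / M ^ n ≤ Cn * c1 * Z := by
    rw [div_le_iff₀ hMn]
    have a1 : V * (X ^ n * L ^ n) ≤ V * (Cn * c1 * Z * M ^ n) := by
      calc V * (X ^ n * L ^ n) = X ^ n * (V * L ^ n) := by ring
        _ ≤ X ^ n * (c1 * (Cn * M ^ n)) :=
          mul_le_mul_of_nonneg_left (h2.trans (mul_le_mul_of_nonneg_left h3 hc1)) hXn.le
        _ = V * (Cn * c1 * Z * M ^ n) := by rw [hY]; ring
    exact le_of_mul_le_mul_left a1 hV
  have f2 : (2 * Cl * Cc * X * L / M + 1) ^ n ≤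
      (2 ^ n * ((2 * Cl * Cc) ^ n * (Cn * c1) + 1)) * Z := by
    have b1 : (2 * Cl * Cc * X * L / M + 1) ^ n ≤
        2 ^ n * ((2 * Cl * Cc * X * L / M) ^ n + 1) := by
      have hy : 0 ≤ 2 * Cl * Cc * X * L / M := by positivity
      rcases le_total (2 * Cl * Cc * X * L / M) 1 with h | h
      · calc (2 * Cl * Cc * X * L / M + 1) ^ n ≤ 2 ^ n :=
              pow_le_pow_left₀ (by positivity) (by linarith) n
          _ ≤ 2 ^ n * ((2 * Cl * Cc * X * L / M) ^ n + 1) := by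
              have : (0 : ℝ) ≤ (2 * Cl * Cc * X * L / M) ^ n := by positivity
              have h2n : (0 : ℝ) < 2 ^ n := by positivity
              nlinarith
      · calc (2 * Cl * Cc * X * L / M + 1) ^ n ≤ (2 * (2 * Cl * Cc * X * L / M)) ^ n :=
              pow_le_pow_left₀ (by positivity) (by linarith) n
          _ = 2 ^ n * (2 * Cl * Cc * X * L / M) ^ n := mul_pow _ _ _
          _ ≤ 2 ^ n * ((2 * Cl * Cc * X * L / M) ^ n + 1) := by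
              have h2n : (0 : ℝ) < 2 ^ n := by positivity
              nlinarith
    refine b1.trans ?_
    have b2 : (2 * Cl * Cc * X * L / M) ^ n = (2 * Cl * Cc) ^ n * (X ^ n * L ^ n / M ^ n) := by
      rw [div_pow, mul_pow, mul_pow]; ring
    rw [b2]
    have b3 : (2 * Cl * Cc) ^ n * (X ^ n * L ^ n / M ^ n) ≤ (2 * Cl * Cc) ^ n * (Cn * c1 * Z) :=
      mul_le_mul_of_nonneg_left g1 (by positivity)
    have h2n : (0 : ℝ) < 2 ^ n := by positivity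
    calc 2 ^ n * ((2 * Cl * Cc) ^ n * (X ^ n * L ^ n / M ^ n) + 1)
        ≤ 2 ^ n * ((2 * Cl * Cc) ^ n * (Cn * c1 * Z) + Z) :=
          mul_le_mul_of_nonneg_left (by linarith) h2n.le
      _ = (2 ^ n * ((2 * Cl * Cc) ^ n * (Cn * c1) + 1)) * Z := by ring
  set c3 := 2 ^ n * ((2 * Cl * Cc) ^ n * (Cn * c1) + 1) with hc3
  have hc30 : 0 ≤ c3 := by rw [hc3]; positivity
  have k1 : N * L ^ n ≤ (2 * Cc + 1) ^ n * c3 * (X ^ n * Z) := by
    calc N * L ^ n ≤ ((2 * Cc * X / L + 1) ^ n * (2 * Cl * Cc * X * L / M + 1) ^ n) * L ^ n :=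
          mul_le_mul_of_nonneg_right h1 hLn.le
      _ = ((2 * Cc * X / L + 1) ^ n * L ^ n) * (2 * Cl * Cc * X * L / M + 1) ^ n := by ring
      _ ≤ ((2 * Cc + 1) ^ n * X ^ n) * (c3 * Z) :=
          mul_le_mul f1 f2 (by positivity) (by positivity)
      _ = (2 * Cc + 1) ^ n * c3 * (X ^ n * Z) := by ring
  have k2 : V ≤ c1 * Cf * (L ^ n) ^ 2 := by
    have a1 : V * L ^ n ≤ (c1 * Cf * (L ^ n) ^ 2) * L ^ n := by
      calc V * L ^ n ≤ c1 * (Cf * L ^ (3 * n)) := h2.trans (mul_le_mul_of_nonneg_left h4 hc1)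
        _ = (c1 * Cf * (L ^ n) ^ 2) * L ^ n := by
          rw [mul_comm 3 n, pow_mul]; ring
    exact le_of_mul_le_mul_right a1 hLn
  have k3 : N ^ 2 * V ≤ (c1 * Cf * ((2 * Cc + 1) ^ n * c3) ^ 2 * (X ^ n * Z ^ 3)) * V := by
    calc N ^ 2 * V ≤ N ^ 2 * (c1 * Cf * (L ^ n) ^ 2) := mul_le_mul_of_nonneg_left k2 (by positivity)
      _ = c1 * Cf * (N * L ^ n) ^ 2 := by ring
      _ ≤ c1 * Cf * ((2 * Cc + 1) ^ n * c3 * (X ^ n * Z)) ^ 2 :=
          mul_le_mul_of_nonneg_left (pow_le_pow_left₀ (by positivity) k1 2) (by positivity)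
      _ = (c1 * Cf * ((2 * Cc + 1) ^ n * c3) ^ 2 * (X ^ n * Z ^ 3)) * V := by
          have : (X ^ n * Z) ^ 2 = X ^ n * Z ^ 3 * V := by
            calc (X ^ n * Z) ^ 2 = X ^ n * (X ^ n) * Z ^ 2 := by ring
              _ = X ^ n * (V * Z) * Z ^ 2 := by rw [hY]
              _ = X ^ n * Z ^ 3 * V := by ring
          calc c1 * Cf * ((2 * Cc + 1) ^ n * c3 * (X ^ n * Z)) ^ 2
              = c1 * Cf * ((2 * Cc + 1) ^ n * c3) ^ 2 * (X ^ n * Z) ^ 2 := by ring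
            _ = _ := by rw [this]; ring
  exact le_of_mul_le_mul_right k3 hV

section NF

variable {K : Type} [Field K] [NumberField K]

/-- the number of primes containing a nonzero element -/
theorem two_pow_card_le {y : 𝓞 K} (hy : y ≠ 0) (S : Finset (Ideal (𝓞 K)))
    (hS : ∀ p ∈ S, p.IsPrime ∧ p ≠ ⊥ ∧ y ∈ p) :
    2 ^ S.card ≤ Ideal.absNorm (Ideal.span {y}) := by
  have h1 : ∏ p ∈ S, p ∣ Ideal.span {y} := by
    refine Finset.prod_primes_dvd _ (fun p hp => ?_) (fun p hp => ?_)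
    · exact Ideal.prime_of_isPrime (hS p hp).2.1 (hS p hp).1
    · exact Ideal.dvd_span_singleton.2 (hS p hp).2.2
  have h2 : Ideal.absNorm (Ideal.span {y}) ≠ 0 := by
    rw [Ne, Ideal.absNorm_eq_zero_iff, Ideal.span_singleton_eq_bot]
    exact hy
  have h3 : ∏ p ∈ S, Ideal.absNorm p ∣ Ideal.absNorm (Ideal.span {y}) := by
    have := map_dvd Ideal.absNorm h1
    rwa [map_prod] at this
  refine le_trans ?_ (Nat.le_of_dvd (Nat.pos_of_ne_zero h2) h3)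
  rw [← Finset.prod_const]
  refine Finset.prod_le_prod' (fun p hp => ?_)
  have h4 : Ideal.absNorm p ≠ 0 := by
    rw [Ne, Ideal.absNorm_eq_zero_iff]
    exact (hS p hp).2.1
  have h5 : Ideal.absNorm p ≠ 1 := by
    rw [Ne, Ideal.absNorm_eq_one_iff]
    exact (hS p hp).1.ne_top
  omega

/-- at most `3` roots modulo a prime -/
theorem card_roots_le (P : (𝓞 K)[X]) (hP : P.Monic) (h3 : P.natDegree = 3)
    (I : Ideal (𝓞 K)) (hI : I.IsPrime) (A : Finset (𝓞 K)) (hA : ∀ t ∈ A, P.eval t ∈ I)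
    (hd : ∀ s ∈ A, ∀ t ∈ A, s - t ∈ I → s = t) : A.card ≤ 3 := by
  classical
  have hdom : IsDomain (𝓞 K ⧸ I) := Ideal.Quotient.isDomain I
  have hne : P.map (Ideal.Quotient.mk I) ≠ 0 := (hP.map _).ne_zero
  have h1 : A.card ≤ (P.map (Ideal.Quotient.mk I)).roots.toFinset.card := by
    refine Finset.card_le_card_of_injOn (fun t => Ideal.Quotient.mk I t) ?_ ?_
    · intro t ht
      rw [mem_coe, Multiset.mem_toFinset, mem_roots hne, IsRoot.def, eval_map, eval₂_at_apply,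
        Ideal.Quotient.eq_zero_iff_mem]
      exact hA t ht
    · intro s hs t ht hst
      exact hd s hs t ht (Ideal.Quotient.eq.1 hst)
  refine h1.trans ((Multiset.toFinset_card_le _).trans ((card_roots' _).trans ?_))
  rw [hP.natDegree_map, h3]

/-- a shortest nonzero vector -/
theorem exists_min {H : Type} (f : H → ℕ) (p : H → Prop) (h : ∃ x, p x) :
    ∃ x, p x ∧ ∀ y, p y → f x ≤ f y := by
  classical
  have h1 : ∃ k, ∃ x, p x ∧ f x = k := by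
    obtain ⟨x, hx⟩ := h
    exact ⟨f x, x, hx, rfl⟩
  obtain ⟨x, hx, hxk⟩ := Nat.find_spec h1
  refine ⟨x, hx, fun y hy => ?_⟩
  rw [hxk]
  exact Nat.find_min' h1 ⟨y, hy, rfl⟩

/-- the shortest vector of the lattice of a prime which is not regular -/
theorem win_short {n : ℕ} (hn : 0 < n) (B : Basis (Fin n) ℤ (𝓞 K))
    (e : (Fin (2 * n) → ℤ) ≃+ 𝓞 K × 𝓞 K) (Cc Cr c0 : ℕ) (hc0 : c0 = Cc * Cr + 1)
    (hCc : ∀ (w : 𝓞 K × 𝓞 K) (i : Fin (2 * n)), |e.symm w i| ≤ Cc * sz2 B w)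
    (hCr : ∀ (Λ : Submodule (𝓞 K) (𝓞 K × 𝓞 K))
      (l R : ℕ), Λ.toAddSubgroup.index ≠ 0 → 0 < l → (∀ w ∈ Λ, w ≠ 0 → l ≤ sz2 B w) → l ≤ R →
      3 ^ n * Λ.toAddSubgroup.index ≤ (R * l) ^ n →
      ∀ z : 𝓞 K × 𝓞 K, ∃ w ∈ Λ, sz2 B (z - w) ≤ Cr * R)
    (E a c T : ℕ) (hE : 8 * (a + c + 1) ≤ E) (hT : c0 ^ (2 * n) < T)
    (I : Ideal (𝓞 K)) (s : 𝓞 K) (hI : I ≠ ⊥)
    (hq : Ideal.absNorm I ≤ T ^ (3 * n * E + a))
    (hrad : ¬ Rad e (Lam I s).toAddSubgroup (T ^ (2 * E - c))) :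
    ∃ w ∈ Lam I s, w ≠ 0 ∧ (∀ w' ∈ Lam I s, w' ≠ 0 → sz2 B w ≤ sz2 B w') ∧
      sz2 B w ≤ T ^ (2 * E) ∧
      T ^ ((2 * E - c) * n) * sz2 B w ^ n ≤ (6 * c0) ^ n * Ideal.absNorm I := by
  have hc0' : 0 < c0 := by omega
  have hT1 : 1 ≤ T := by
    have : 0 < c0 ^ (2 * n) := pow_pos hc0' _
    omega
  have hidx : (Lam I s).toAddSubgroup.index = Ideal.absNorm I := by
    rw [Lam_index, Ideal.absNorm_apply, Submodule.cardQuot_apply]
  have hq0 : Ideal.absNorm I ≠ 0 := by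
    rw [Ne, Ideal.absNorm_eq_zero_iff]
    exact hI
  obtain ⟨R, hR⟩ : ∃ R, R = T ^ (2 * E - c) / c0 := ⟨_, rfl⟩
  have hR1 : T ^ (2 * E - c) < c0 * (R + 1) := by
    rw [hR]; exact Nat.lt_mul_div_succ _ hc0'
  have hR2 : R * c0 ≤ T ^ (2 * E - c) := by
    rw [hR]; exact Nat.div_mul_le_self _ _
  have hexp : 3 * n * E + a + 1 ≤ (2 * E - c) * (2 * n) := by
    obtain ⟨d, hd⟩ : ∃ d, 2 * E = d + c := ⟨2 * E - c, by omega⟩
    have hd' : 2 * E - c = d := by omega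
    rw [hd']
    have h1 : (d + c) * (2 * n) = 4 * n * E := by rw [← hd]; ring
    have h2 : n * (8 * (a + c + 1)) ≤ n * E := Nat.mul_le_mul_left _ hE
    have h3 : a ≤ n * a := Nat.le_mul_of_pos_left _ hn
    nlinarith
  have hlt : Ideal.absNorm I < (R + 1) ^ (2 * n) := by
    have h1 : T ^ ((2 * E - c) * (2 * n)) ≤ c0 ^ (2 * n) * (R + 1) ^ (2 * n) := by
      rw [pow_mul, ← mul_pow]
      exact Nat.pow_le_pow_left hR1.le _
    have h2 : Ideal.absNorm I * T ≤ T ^ ((2 * E - c) * (2 * n)) := by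
      calc Ideal.absNorm I * T ≤ T ^ (3 * n * E + a) * T := Nat.mul_le_mul_right _ hq
        _ = T ^ (3 * n * E + a + 1) := (pow_succ _ _).symm
        _ ≤ T ^ ((2 * E - c) * (2 * n)) := Nat.pow_le_pow_right hT1 hexp
    by_contra hcon
    push Not at hcon
    have h3 : Ideal.absNorm I * T ≤ c0 ^ (2 * n) * Ideal.absNorm I :=
      (h2.trans h1).trans (Nat.mul_le_mul_left _ hcon)
    have h4 : c0 ^ (2 * n) * Ideal.absNorm I < T * Ideal.absNorm I :=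
      Nat.mul_lt_mul_of_pos_right hT (Nat.pos_of_ne_zero hq0)
    rw [mul_comm T] at h4
    omega
  obtain ⟨w0, hw0, hw00, hw0R⟩ := exists_short B (Lam I s) R (by rw [hidx]; exact hq0)
    (by rw [hidx]; exact hlt)
  obtain ⟨w, ⟨hw, hwne⟩, hmin⟩ := exists_min (sz2 B) (fun w => w ∈ Lam I s ∧ w ≠ 0)
    ⟨w0, hw0, hw00⟩
  have hlR : sz2 B w ≤ R := (hmin w0 ⟨hw0, hw00⟩).trans hw0R
  have hl0 : 0 < sz2 B w := by
    rw [Nat.pos_iff_ne_zero]
    exact fun h => hwne (sz2_eq_zero h)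
  refine ⟨w, hw, hwne, fun w' hw' h' => hmin w' ⟨hw', h'⟩, ?_, ?_⟩
  · calc sz2 B w ≤ R := hlR
      _ ≤ R * c0 := Nat.le_mul_of_pos_right _ hc0'
      _ ≤ T ^ (2 * E - c) := hR2
      _ ≤ T ^ (2 * E) := Nat.pow_le_pow_right hT1 (Nat.sub_le _ _)
  · have h1 : (R * sz2 B w) ^ n < 3 ^ n * Ideal.absNorm I := by
      by_contra hcon
      push Not at hcon
      apply hrad
      intro g
      obtain ⟨w', hw', hsz⟩ := hCr (Lam I s) (sz2 B w) R (by rw [hidx]; exact hq0) hl0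
        (fun w' hw' h' => hmin w' ⟨hw', h'⟩) hlR (by rw [hidx]; exact hcon) g
      refine ⟨w', hw', fun i => (hCc _ i).trans ?_⟩
      have h2 : Cc * sz2 B (g - w') ≤ T ^ (2 * E - c) := by
        calc Cc * sz2 B (g - w') ≤ Cc * (Cr * R) := Nat.mul_le_mul_left _ hsz
          _ ≤ R * c0 := by rw [hc0]; nlinarith
          _ ≤ T ^ (2 * E - c) := hR2
      exact_mod_cast h2
    have hR0 : 0 < R := lt_of_lt_of_le hl0 hlR
    have h2 : T ^ (2 * E - c) ≤ 2 * c0 * R := by nlinarith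
    calc T ^ ((2 * E - c) * n) * sz2 B w ^ n = (T ^ (2 * E - c) * sz2 B w) ^ n := by
          rw [pow_mul, mul_pow]
      _ ≤ (2 * c0 * R * sz2 B w) ^ n := Nat.pow_le_pow_left (Nat.mul_le_mul_right _ h2) _
      _ = (2 * c0) ^ n * (R * sz2 B w) ^ n := by rw [← mul_pow]; ring
      _ ≤ (2 * c0) ^ n * (3 ^ n * Ideal.absNorm I) := Nat.mul_le_mul_left _ h1.le
      _ = (6 * c0) ^ n * Ideal.absNorm I := by
          rw [← mul_assoc, ← mul_pow]; congr 2; ring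

/-- the number of points -/
theorem win_count {n : ℕ} (B : Basis (Fin n) ℤ (𝓞 K))
    (e : (Fin (2 * n) → ℤ) ≃+ 𝓞 K × 𝓞 K) (Cc Cl Cn Cf c1 : ℕ) (hc1 : 0 < c1) (hCf : 0 < Cf)
    (hCc : ∀ (w : 𝓞 K × 𝓞 K) (X : ℕ), (∀ i, |e.symm w i| ≤ X) → sz2 B w ≤ Cc * X)
    (hCn : ∀ x : 𝓞 K, x ≠ 0 → Ideal.absNorm (Ideal.span {x}) ≤ Cn * sz B x ^ n)
    (hCl : ∀ (b : Ideal (𝓞 K)) (s : 𝓞 K) (l ρ μ : ℕ),
      0 < l → 0 < μ → (∀ w ∈ Lam b s, w ≠ 0 → l ≤ sz2 B w) → (∀ x ∈ b, x ≠ 0 → μ ≤ sz B x) →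
      ∀ w1 ∈ Lam b s, w1 ≠ 0 → ∀ A : Finset (𝓞 K × 𝓞 K), (∀ w ∈ A, w ∈ Lam b s) →
      (∀ w ∈ A, ∀ w' ∈ A, sz2 B (w - w') ≤ ρ) →
      A.card ≤ (2 * ρ / l + 1) ^ n * (2 * (Cl * ρ * sz2 B w1) / μ + 1) ^ n) :
    ∃ c4 : ℕ, ∀ (E c T : ℕ), c ≤ 2 * E → 0 < T → ∀ (I : Ideal (𝓞 K)) (s : 𝓞 K), I ≠ ⊥ →
    ∀ w ∈ Lam I s, w ≠ 0 → (∀ w' ∈ Lam I s, w' ≠ 0 → sz2 B w ≤ sz2 B w') →
      sz2 B w ≤ T ^ (2 * E) →
      T ^ ((2 * E - c) * n) * sz2 B w ^ n ≤ c1 * Ideal.absNorm I →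
      Ideal.absNorm I ≤ Cf * sz2 B w ^ (3 * n) →
      ∀ (τ : 𝓞 K × 𝓞 K) (A : Finset (𝓞 K × 𝓞 K)), A ⊆ bx e τ (T ^ (2 * E)) →
      (∀ g ∈ A, g ∈ Lam I s) → A.card ≤ c4 * T ^ (n * E + 2 * n * c) := by
  obtain ⟨κ, hκ⟩ : ∃ κ : ℕ, κ = c1 * Cf * ((2 * Cc + 1) ^ n *
    (2 ^ n * ((2 * Cl * Cc) ^ n * (Cn * c1) + 1))) ^ 2 := ⟨_, rfl⟩
  refine ⟨κ, fun E c T hcE hT I s hI w hw hw0 hmin hwX hi hii τ A hAbx hAL => ?_⟩
  have hq0 : Ideal.absNorm I ≠ 0 := by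
    rw [Ne, Ideal.absNorm_eq_zero_iff]
    exact hI
  have hl0 : 0 < sz2 B w := by
    rw [Nat.pos_iff_ne_zero]
    exact fun h => hw0 (sz2_eq_zero h)
  obtain ⟨x0, hx0, hx00⟩ := Submodule.exists_mem_ne_zero_of_ne_bot hI
  obtain ⟨x, ⟨hx, hxne⟩, hxmin⟩ := exists_min (sz B) (fun x => x ∈ I ∧ x ≠ 0) ⟨x0, hx0, hx00⟩
  have hμ0 : 0 < sz B x := by
    rw [Nat.pos_iff_ne_zero]
    exact fun h => hxne (sz_eq_zero h)
  have hqx : Ideal.absNorm I ≤ Cn * sz B x ^ n := by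
    refine le_trans ?_ (hCn x hxne)
    refine Nat.le_of_dvd ?_ ?_
    · rw [Nat.pos_iff_ne_zero, Ne, Ideal.absNorm_eq_zero_iff, Ideal.span_singleton_eq_bot]
      exact hxne
    · exact Ideal.absNorm_dvd_absNorm_of_le ((Ideal.span_singleton_le_iff_mem I).2 hx)
  have hcard := hCl I s (sz2 B w) (Cc * T ^ (2 * E)) (sz B x) hl0 hμ0 hmin
    (fun y hy hy0 => hxmin y ⟨hy, hy0⟩) w hw hw0 A hAL (fun g hg g' hg' => by
      refine hCc _ _ (fun i => ?_)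
      have h1 := mem_bx.1 (hAbx hg) i
      have h2 := mem_bx.1 (hAbx hg') i
      have h3 : e.symm (g - g') i = e.symm (g - τ) i - e.symm (g' - τ) i := by
        have : g - g' = (g - τ) - (g' - τ) := by abel
        rw [this, map_sub, Pi.sub_apply]
      rw [h3, abs_le]
      push_cast at h1 h2 ⊢
      constructor <;> linarith [h1.1, h1.2, h2.1, h2.2])
  have hTr : (1 : ℝ) ≤ T := by exact_mod_cast hT
  have hreal : (A.card : ℝ) ^ 2 ≤ κ * (((T : ℝ) ^ (2 * E)) ^ n * ((T : ℝ) ^ (c * n)) ^ 3) := by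
    have := real_count n A.card ((T : ℝ) ^ (2 * E)) (sz2 B w) (sz B x) (Ideal.absNorm I)
      ((T : ℝ) ^ ((2 * E - c) * n)) ((T : ℝ) ^ (c * n)) Cc Cl Cn Cf c1 (by positivity)
      (by exact_mod_cast hl0) (by exact_mod_cast hμ0) (by exact_mod_cast hwX)
      (by exact_mod_cast Nat.pos_of_ne_zero hq0) (by positivity)
      (one_le_pow₀ hTr) (by positivity) (by positivity) (by positivity) (by positivity)
      (by positivity) ?_ ?_ (by exact_mod_cast hi) (by exact_mod_cast hqx)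
      (by exact_mod_cast hii)
    · refine this.trans (le_of_eq ?_)
      rw [hκ]
      push_cast
      ring
    · rw [← pow_add, ← pow_mul, ← add_mul]
      congr 2
      omega
    · calc (A.card : ℝ) ≤ ((2 * (Cc * T ^ (2 * E)) / sz2 B w + 1 : ℕ) : ℝ) ^ n *
            ((2 * (Cl * (Cc * T ^ (2 * E)) * sz2 B w) / sz B x + 1 : ℕ) : ℝ) ^ n := by
            exact_mod_cast hcard
        _ ≤ _ := by
            refine mul_le_mul (pow_le_pow_left₀ (by positivity) ?_ n)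
              (pow_le_pow_left₀ (by positivity) ?_ n) (by positivity) (by positivity)
            · push_cast
              have := Nat.cast_div_le (α := ℝ) (m := 2 * (Cc * T ^ (2 * E))) (n := sz2 B w)
              push_cast at this
              have e1 : 2 * (Cc : ℝ) * (T : ℝ) ^ (2 * E) = 2 * (Cc * (T : ℝ) ^ (2 * E)) := by ring
              rw [e1]
              linarith
            · push_cast
              have := Nat.cast_div_le (α := ℝ) (m := 2 * (Cl * (Cc * T ^ (2 * E)) * sz2 B w))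
                (n := sz B x)
              push_cast at this
              have e1 : 2 * (Cl : ℝ) * Cc * (T : ℝ) ^ (2 * E) * sz2 B w =
                2 * (Cl * (Cc * (T : ℝ) ^ (2 * E)) * sz2 B w) := by ring
              rw [e1]
              linarith
  have hκ1 : 1 ≤ κ := by
    rw [hκ]
    exact Nat.one_le_iff_ne_zero.2 (by positivity)
  have hnat : A.card ^ 2 ≤ (κ * T ^ (n * E + 2 * n * c)) ^ 2 := by
    have h1 : A.card ^ 2 ≤ κ * ((T ^ (2 * E)) ^ n * (T ^ (c * n)) ^ 3) := by exact_mod_cast hreal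
    refine h1.trans ?_
    have h2 : (T ^ (2 * E)) ^ n * (T ^ (c * n)) ^ 3 = T ^ (2 * n * E + 3 * n * c) := by
      rw [← pow_mul, ← pow_mul, ← pow_add]
      congr 1
      ring
    rw [h2, mul_pow, ← pow_mul]
    refine Nat.mul_le_mul ?_ (Nat.pow_le_pow_right hT ?_)
    · rw [pow_two]
      exact Nat.le_mul_of_pos_left _ hκ1
    · nlinarith [Nat.zero_le (n * c)]
  exact (Nat.pow_le_pow_iff_left (by norm_num)).1 hnat

open Classical in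
/-- the number of pairs `(I, t)` -/
theorem win_pairs {n : ℕ} (B : Basis (Fin n) ℤ (𝓞 K)) (P : (𝓞 K)[X])
    (hP : P.Monic) (h3 : P.natDegree = 3) (m : ℕ) (Cf c1 : ℕ)
    (hmem : ∀ (b : Ideal (𝓞 K)) (t : 𝓞 K), P.eval t ∈ b → ∀ w : 𝓞 K × 𝓞 K,
      w ∈ Lam b (t * m) → hv P w.1 (m * w.2) ∈ b)
    (hne : ∀ w : 𝓞 K × 𝓞 K, w ≠ 0 → hv P w.1 (m * w.2) ≠ 0)
    (hf : ∀ w : 𝓞 K × 𝓞 K, hv P w.1 (m * w.2) ≠ 0 →
      Ideal.absNorm (Ideal.span {hv P w.1 (m * w.2)}) ≤ Cf * sz2 B w ^ (3 * n))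
    (k : ℕ) : ∃ T0 : ℕ, ∀ T : ℕ, T0 ≤ T → ∀ (A : Finset (Ideal (𝓞 K) × 𝓞 K))
    (f : Ideal (𝓞 K) × 𝓞 K → 𝓞 K × 𝓞 K),
    (∀ x ∈ A, x.1.IsPrime ∧ x.1 ≠ ⊥ ∧ P.eval x.2 ∈ x.1) →
    (∀ x ∈ A, ∀ y ∈ A, x.1 = y.1 → x.2 - y.2 ∈ x.1 → x = y) →
    (∀ x ∈ A, f x ∈ Lam x.1 (x.2 * m) ∧ f x ≠ 0 ∧ sz2 B (f x) ^ n ≤ c1 * T ^ k) →
    A.card ≤ 9 ^ n * c1 ^ 2 * T ^ (2 * k + 1) := by
  obtain ⟨T0, hT0⟩ := exists_pow_lt ((Cf * c1 ^ 3) ^ 3) (9 * k)
  refine ⟨T0, fun T hT A f hA hinj hfA => ?_⟩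
  -- the fibres
  have hfib : ∀ w ∈ A.image f, (A.filter (fun x => f x = w)).card ≤ T := by
    intro w hw
    obtain ⟨x0, hx0, hx0w⟩ := Finset.mem_image.1 hw
    have hw0 : w ≠ 0 := hx0w ▸ (hfA x0 hx0).2.1
    have hwk : sz2 B w ^ n ≤ c1 * T ^ k := hx0w ▸ (hfA x0 hx0).2.2
    set A' := A.filter (fun x => f x = w) with hA'
    have hsub : ∀ x ∈ A', x ∈ A ∧ f x = w := fun x hx => Finset.mem_filter.1 hx
    have h1 : A'.card ≤ 3 * (A'.image Prod.fst).card := by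
      refine Finset.card_le_mul_card_image _ 3 (fun I hI => ?_)
      obtain ⟨y0, hy0, hy0I⟩ := Finset.mem_image.1 hI
      have hIprime : I.IsPrime := hy0I ▸ (hA y0 (hsub y0 hy0).1).1
      have h2 : (A'.filter (fun x => x.1 = I)).card =
          ((A'.filter (fun x => x.1 = I)).image Prod.snd).card := by
        refine (Finset.card_image_of_injOn ?_).symm
        intro x hx y hy hxy
        rw [mem_coe, Finset.mem_filter] at hx hy
        exact Prod.ext (hx.2.trans hy.2.symm) hxy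
      rw [h2]
      refine card_roots_le P hP h3 I hIprime _ ?_ ?_
      · intro t ht
        obtain ⟨x, hx, rfl⟩ := Finset.mem_image.1 ht
        rw [Finset.mem_filter] at hx
        have := (hA x (hsub x hx.1).1).2.2
        rwa [hx.2] at this
      · intro s hs t ht hst
        obtain ⟨x, hx, rfl⟩ := Finset.mem_image.1 hs
        obtain ⟨y, hy, rfl⟩ := Finset.mem_image.1 ht
        rw [Finset.mem_filter] at hx hy
        rw [hinj x (hsub x hx.1).1 y (hsub y hy.1).1 (hx.2.trans hy.2.symm)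
          (by rw [hx.2]; exact hst)]
    have h2 : 2 ^ (A'.image Prod.fst).card ≤ Cf * c1 ^ 3 * T ^ (3 * k) := by
      refine (two_pow_card_le (hne w hw0) _ ?_).trans ((hf w (hne w hw0)).trans ?_)
      · intro p hp
        obtain ⟨x, hx, rfl⟩ := Finset.mem_image.1 hp
        have hxA := hA x (hsub x hx).1
        refine ⟨hxA.1, hxA.2.1, hmem x.1 x.2 hxA.2.2 w ?_⟩
        rw [← (hsub x hx).2]
        exact (hfA x (hsub x hx).1).1
      · calc Cf * sz2 B w ^ (3 * n) = Cf * (sz2 B w ^ n) ^ 3 := by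
              rw [← pow_mul, mul_comm n 3]
          _ ≤ Cf * (c1 * T ^ k) ^ 3 := Nat.mul_le_mul_left _ (Nat.pow_le_pow_left hwk 3)
          _ = Cf * c1 ^ 3 * T ^ (3 * k) := by
              rw [mul_pow, ← pow_mul, mul_comm k 3, mul_assoc]
    by_contra hcon
    push Not at hcon
    have h3' : 2 ^ T ≤ (2 ^ (A'.image Prod.fst).card) ^ 3 := by
      rw [← pow_mul]
      exact Nat.pow_le_pow_right (by norm_num) (by omega)
    have h4 : (2 ^ (A'.image Prod.fst).card) ^ 3 ≤ (Cf * c1 ^ 3) ^ 3 * T ^ (9 * k) := by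
      calc (2 ^ (A'.image Prod.fst).card) ^ 3 ≤ (Cf * c1 ^ 3 * T ^ (3 * k)) ^ 3 :=
            Nat.pow_le_pow_left h2 3
        _ = (Cf * c1 ^ 3) ^ 3 * T ^ (9 * k) := by
            rw [mul_pow, ← pow_mul]; congr 2; ring
    have h5 := hT0 T hT
    omega
  -- the image
  have himg : (A.image f).card ≤ 9 ^ n * c1 ^ 2 * T ^ (2 * k) := by
    rcases A.eq_empty_or_nonempty with rfl | hAne
    · simp
    obtain ⟨x0, hx0, hmax⟩ := Finset.exists_max_image A (fun x => sz2 B (f x)) hAne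
    have hL := (hfA x0 hx0).2.2
    have hL0 : 0 < sz2 B (f x0) := by
      rw [Nat.pos_iff_ne_zero]
      exact fun h => (hfA x0 hx0).2.1 (sz2_eq_zero h)
    have : Module.Free ℤ (𝓞 K) := Module.Free.of_basis B
    have : Module.Finite ℤ (𝓞 K) := Module.Finite.of_basis B
    have hrank : finrank ℤ (𝓞 K × 𝓞 K) ≤ 2 * n := by
      rw [Module.finrank_prod, finrank_O B]
      omega
    have h1 := packing (H := 𝓞 K × 𝓞 K) hrank (sz2 B) (sz2_sub B) (le_sz2_nsmul B)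
      (l := 1) (ρ := sz2 B (f x0)) one_pos (fun x hx => by
        rw [Nat.one_le_iff_ne_zero]
        exact fun h => hx (sz2_eq_zero h)) (A.image f) (fun w hw => by
        obtain ⟨x, hx, rfl⟩ := Finset.mem_image.1 hw
        exact hmax x hx)
    refine h1.trans ?_
    rw [Nat.div_one]
    calc (2 * sz2 B (f x0) + 1) ^ (2 * n) ≤ (3 * sz2 B (f x0)) ^ (2 * n) :=
          Nat.pow_le_pow_left (by omega) _
      _ = 9 ^ n * (sz2 B (f x0) ^ n) ^ 2 := by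
          rw [mul_pow, pow_mul 3 2 n, ← pow_mul (sz2 B (f x0)) n 2, mul_comm n 2]
          norm_num
      _ ≤ 9 ^ n * (c1 * T ^ k) ^ 2 := Nat.mul_le_mul_left _ (Nat.pow_le_pow_left hL 2)
      _ = 9 ^ n * c1 ^ 2 * T ^ (2 * k) := by
          rw [mul_pow, ← pow_mul, mul_comm k 2, mul_assoc]
  calc A.card ≤ T * (A.image f).card := Finset.card_le_mul_card_image _ T hfib
    _ ≤ T * (9 ^ n * c1 ^ 2 * T ^ (2 * k)) := Nat.mul_le_mul_left _ himg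
    _ = 9 ^ n * c1 ^ 2 * T ^ (2 * k + 1) := by rw [pow_succ]; ring

open Classical in
/-- **WIN** with the facts on the form as hypotheses -/
theorem win_of {n : ℕ} (hn : 0 < n)
    (B : Basis (Fin n) ℤ (𝓞 K)) (e : (Fin (2 * n) → ℤ) ≃+ 𝓞 K × 𝓞 K) (P : (𝓞 K)[X])
    (hP : P.Monic) (h3 : P.natDegree = 3) (m : ℕ)
    (hcoord : ∃ C : ℕ, (∀ w i, |e.symm w i| ≤ C * sz2 B w) ∧
      ∀ (w : 𝓞 K × 𝓞 K) (X : ℕ), (∀ i, |e.symm w i| ≤ X) → sz2 B w ≤ C * X)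
    (hnorm : ∃ C : ℕ, 0 < C ∧ ∀ x : 𝓞 K, x ≠ 0 →
      Ideal.absNorm (Ideal.span {x}) ≤ C * sz B x ^ n)
    (hmem : ∀ (b : Ideal (𝓞 K)) (t : 𝓞 K), P.eval t ∈ b → ∀ w : 𝓞 K × 𝓞 K,
      w ∈ Lam b (t * m) → hv P w.1 (m * w.2) ∈ b)
    (hne : ∀ w : 𝓞 K × 𝓞 K, w ≠ 0 → hv P w.1 (m * w.2) ≠ 0)
    (hf : ∃ C : ℕ, 0 < C ∧ ∀ w : 𝓞 K × 𝓞 K,
      hv P w.1 (m * w.2) ≠ 0 →
      Ideal.absNorm (Ideal.span {hv P w.1 (m * w.2)}) ≤ C * sz2 B w ^ (P.natDegree * n))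
    (E a c : ℕ) (hE : 8 * (a + c + 1) ≤ E) : ∃ T0 : ℕ, ∀ T : ℕ, T0 ≤ T →
    ∀ (τ : 𝓞 K × 𝓞 K) (A : Finset (Ideal (𝓞 K) × 𝓞 K)),
    (∀ x ∈ A, x.1.IsPrime ∧ x.1 ≠ ⊥ ∧ P.eval x.2 ∈ x.1 ∧
      Ideal.absNorm x.1 ≤ T ^ (3 * n * E + a) ∧
      ¬ Rad e (Lam x.1 (x.2 * m)).toAddSubgroup (T ^ (2 * E - c))) →
    (∀ x ∈ A, ∀ y ∈ A, x.1 = y.1 → x.2 - y.2 ∈ x.1 → x = y) →
    ∑ x ∈ A, ((bx e τ (T ^ (2 * E))).filter (fun g => g ∈ Lam x.1 (x.2 * m))).card ≤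
      T ^ (3 * n * E + 2 * a + 4 * n * c + 2) := by
  obtain ⟨Cc, hCc1, hCc2⟩ := hcoord
  obtain ⟨Cn, _, hCn⟩ := hnorm
  obtain ⟨Cf, hCf0, hCf⟩ := hf
  rw [h3] at hCf
  obtain ⟨Cr, hCr⟩ := radius B hn
  obtain ⟨Cl, hCl⟩ := count_Lam B
  obtain ⟨c0, hc0⟩ : ∃ c0, c0 = Cc * Cr + 1 := ⟨_, rfl⟩
  obtain ⟨c1, hc1⟩ : ∃ c1, c1 = (6 * c0) ^ n := ⟨_, rfl⟩
  have hc0' : 0 < c0 := by omega
  have hc1' : 0 < c1 := by rw [hc1]; positivity
  obtain ⟨c4, hc4⟩ := win_count B e Cc Cl Cn Cf c1 hc1' hCf0 hCc2 hCn hCl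
  obtain ⟨T1, hT1⟩ := win_pairs B P hP h3 m Cf c1 hmem hne hCf (n * E + a + n * c)
  refine ⟨max T1 (max (c0 ^ (2 * n) + 1) (9 ^ n * c1 ^ 2 * c4 + 1)), fun T hT τ A hA hinj => ?_⟩
  have hTa : T1 ≤ T := (le_max_left _ _).trans hT
  have hTb : c0 ^ (2 * n) + 1 ≤ T := ((le_max_left _ _).trans (le_max_right _ _)).trans hT
  have hTc : 9 ^ n * c1 ^ 2 * c4 + 1 ≤ T := ((le_max_right _ _).trans (le_max_right _ _)).trans hT
  have hT0 : 0 < T := by omega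
  have hcE : c ≤ 2 * E := by omega
  -- the shortest vectors
  have hs : ∀ x ∈ A, ∃ w ∈ Lam x.1 (x.2 * m), w ≠ 0 ∧
      (∀ w' ∈ Lam x.1 (x.2 * m), w' ≠ 0 → sz2 B w ≤ sz2 B w') ∧
      sz2 B w ≤ T ^ (2 * E) ∧
      T ^ ((2 * E - c) * n) * sz2 B w ^ n ≤ c1 * Ideal.absNorm x.1 := by
    intro x hx
    obtain ⟨-, h2, -, h4, h5⟩ := hA x hx
    rw [hc1]
    exact win_short hn B e Cc Cr c0 hc0 hCc1 hCr E a c T hE (by omega) x.1 (x.2 * m) h2 h4 h5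
  have hs' : ∀ x : Ideal (𝓞 K) × 𝓞 K, ∃ w, x ∈ A → (w ∈ Lam x.1 (x.2 * m) ∧ w ≠ 0 ∧
      (∀ w' ∈ Lam x.1 (x.2 * m), w' ≠ 0 → sz2 B w ≤ sz2 B w') ∧
      sz2 B w ≤ T ^ (2 * E) ∧
      T ^ ((2 * E - c) * n) * sz2 B w ^ n ≤ c1 * Ideal.absNorm x.1) := by
    intro x
    by_cases hx : x ∈ A
    · obtain ⟨w, h1, h2⟩ := hs x hx
      exact ⟨w, fun _ => ⟨h1, h2⟩⟩
    · exact ⟨0, fun h => absurd h hx⟩
  choose f hf using hs'
  have hcard : A.card ≤ 9 ^ n * c1 ^ 2 * T ^ (2 * (n * E + a + n * c) + 1) := by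
    refine hT1 T hTa A f (fun x hx => ⟨(hA x hx).1, (hA x hx).2.1, (hA x hx).2.2.1⟩) hinj ?_
    intro x hx
    obtain ⟨h1, h2, -, -, h5⟩ := hf x hx
    refine ⟨h1, h2, ?_⟩
    have h6 : T ^ ((2 * E - c) * n) * sz2 B (f x) ^ n ≤
        T ^ ((2 * E - c) * n) * (c1 * T ^ (n * E + a + n * c)) := by
      refine h5.trans ((Nat.mul_le_mul_left _ (hA x hx).2.2.2.1).trans (le_of_eq ?_))
      rw [mul_left_comm, ← pow_add]
      congr 2
      obtain ⟨d, hd⟩ : ∃ d, 2 * E = d + c := ⟨2 * E - c, by omega⟩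
      have hd' : 2 * E - c = d := by omega
      rw [hd']
      have h7 : n * (2 * E) = n * (d + c) := by rw [hd]
      nlinarith
    exact Nat.le_of_mul_le_mul_left h6 (pow_pos hT0 _)
  have hsum : ∀ x ∈ A, ((bx e τ (T ^ (2 * E))).filter (fun g => g ∈ Lam x.1 (x.2 * m))).card ≤
      c4 * T ^ (n * E + 2 * n * c) := by
    intro x hx
    obtain ⟨h1, h2, h3', h4, h5⟩ := hf x hx
    obtain ⟨-, hxb, hxe, -, -⟩ := hA x hx
    refine hc4 E c T hcE hT0 x.1 (x.2 * m) hxb (f x) h1 h2 h3' h4 h5 ?_ τ _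
      (Finset.filter_subset _ _) (fun g hg => (Finset.mem_filter.1 hg).2)
    refine le_trans ?_ (hCf (f x) (hne _ h2))
    refine Nat.le_of_dvd ?_ ?_
    · rw [Nat.pos_iff_ne_zero, Ne, Ideal.absNorm_eq_zero_iff, Ideal.span_singleton_eq_bot]
      exact hne _ h2
    · exact Ideal.absNorm_dvd_absNorm_of_le
        ((Ideal.span_singleton_le_iff_mem x.1).2 (hmem x.1 x.2 hxe (f x) h1))
  calc ∑ x ∈ A, ((bx e τ (T ^ (2 * E))).filter (fun g => g ∈ Lam x.1 (x.2 * m))).card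
      ≤ ∑ _x ∈ A, c4 * T ^ (n * E + 2 * n * c) := Finset.sum_le_sum hsum
    _ = A.card * (c4 * T ^ (n * E + 2 * n * c)) := by rw [Finset.sum_const, smul_eq_mul]
    _ ≤ (9 ^ n * c1 ^ 2 * T ^ (2 * (n * E + a + n * c) + 1)) * (c4 * T ^ (n * E + 2 * n * c)) :=
        Nat.mul_le_mul_right _ hcard
    _ = (9 ^ n * c1 ^ 2 * c4) * T ^ (3 * n * E + 2 * a + 4 * n * c + 1) := by
        have : T ^ (3 * n * E + 2 * a + 4 * n * c + 1) =
            T ^ (2 * (n * E + a + n * c) + 1) * T ^ (n * E + 2 * n * c) := by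
          rw [← pow_add]; congr 1; ring
        rw [this]; ring
    _ ≤ T * T ^ (3 * n * E + 2 * a + 4 * n * c + 1) := Nat.mul_le_mul_right _ (by omega)
    _ = T ^ (3 * n * E + 2 * a + 4 * n * c + 2) := by
        rw [mul_comm, ← pow_succ]

end NF

end Pool.Agent.Helper98.CB
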