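import Mathlib

/-!
# CB, T-TRI: elimination of one variable from a finite family
-/

set_option autoImplicit false

namespace Pool.Agent.Helper98.CB

open Polynomial

/-- elimination of `X` from a family without common irreducible factor, over a unique
factorisation domain -/
theorem exists_bezout_poly {A : Type*} [CommRing A] [IsDomain A] [UniqueFactorizationMonoid A]
    {ι : Type*} [DecidableEq ι] (s : Finset ι) (f : ι → A[X])
    (hf : ∀ P : A[X], Irreducible P → ∃ i ∈ s, ¬ P ∣ f i) :
    ∃ (h : ι → A[X]) (d : A), d ≠ 0 ∧ ∑ i ∈ s, h i * f i = C d := by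
  classical
  set F := FractionRing A
  have hinj : Function.Injective (algebraMap A F) := FaithfulSMul.algebraMap_injective A F
  set I : Ideal F[X] := Ideal.span ((fun i => (f i).map (algebraMap A F)) '' (s : Set ι)) with hI
  have htop : I = ⊤ := by
    by_contra hne
    obtain ⟨M, hM, hIM⟩ := Ideal.exists_le_maximal I hne
    have hMbot : M ≠ ⊥ := Ring.ne_bot_of_isMaximal_of_not_isField hM (Polynomial.not_isField F)
    obtain ⟨π, hπ⟩ : ∃ π, M = Ideal.span {π} := by
      obtain ⟨π, hπ⟩ := (IsPrincipalIdealRing.principal M).1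
      exact ⟨π, hπ⟩
    have hπ0 : π ≠ 0 := by
      intro h
      apply hMbot
      rw [hπ, h, Ideal.span_singleton_eq_bot]
    have hπp : Prime π := by
      rw [← Ideal.span_singleton_prime hπ0, ← hπ]
      exact hM.isPrime
    have hπdvd : ∀ i ∈ s, π ∣ (f i).map (algebraMap A F) := by
      intro i hi
      rw [← Ideal.mem_span_singleton, ← hπ]
      apply hIM
      rw [hI]
      exact Ideal.subset_span ⟨i, hi, rfl⟩
    have : Nonempty (NormalizedGCDMonoid A) := inferInstance
    let _ : NormalizedGCDMonoid A := Classical.choice this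
    set Q := (IsLocalization.integerNormalization (nonZeroDivisors A) π).primPart with hQ
    have hQprim : Q.IsPrimitive := isPrimitive_primPart _
    obtain ⟨c, hc, h1⟩ := IsLocalization.integerNormalization_spec (nonZeroDivisors A) π
    have hc0 : algebraMap A F c ≠ 0 := by
      intro h
      rw [map_eq_zero_iff _ hinj] at h
      exact nonZeroDivisors.ne_zero hc h
    have hN0 : IsLocalization.integerNormalization (nonZeroDivisors A) π ≠ 0 := by
      intro h
      rw [h, Polynomial.map_zero] at h1
      have : C (algebraMap A F c) * π = 0 := by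
        rw [← Polynomial.algebraMap_apply, ← Algebra.smul_def]
        exact h1.symm
      rcases mul_eq_zero.1 this with h2 | h2
      · exact hc0 (C_eq_zero.1 h2)
      · exact hπ0 h2
    set κ := (IsLocalization.integerNormalization (nonZeroDivisors A) π).content with hκ
    have hκ0 : algebraMap A F κ ≠ 0 := by
      intro h
      rw [map_eq_zero_iff _ hinj, hκ, content_eq_zero_iff] at h
      exact hN0 h
    have h2 : C (algebraMap A F κ) * Q.map (algebraMap A F) = C (algebraMap A F c) * π := by
      have h3 := (IsLocalization.integerNormalization (nonZeroDivisors A) π).eq_C_content_mul_primPart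
      have h4 := congrArg (Polynomial.map (algebraMap A F)) h3
      rw [h1, Polynomial.map_mul, map_C] at h4
      rw [← h4, Algebra.smul_def, Polynomial.algebraMap_apply]
    have hassoc : Associated π (Q.map (algebraMap A F)) := by
      have hu1 : IsUnit (C (algebraMap A F κ)) := isUnit_C.2 (isUnit_iff_ne_zero.2 hκ0)
      have hu2 : IsUnit (C (algebraMap A F c)) := isUnit_C.2 (isUnit_iff_ne_zero.2 hc0)
      have a1 : Associated (Q.map (algebraMap A F)) (C (algebraMap A F κ) * Q.map (algebraMap A F)) :=
        (associated_unit_mul_left _ _ hu1).symm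
      have a2 : Associated π (C (algebraMap A F c) * π) := (associated_unit_mul_left _ _ hu2).symm
      rw [h2] at a1
      exact a2.trans a1.symm
    have hQirr : Irreducible Q := by
      rw [hQprim.irreducible_iff_irreducible_map_fraction_map (K := F)]
      exact hassoc.irreducible hπp.irreducible
    obtain ⟨i, hi, hnd⟩ := hf Q hQirr
    apply hnd
    exact hQprim.dvd_of_fraction_map_dvd_fraction_map (hassoc.symm.dvd.trans (hπdvd i hi))
  have h1 : (1 : F[X]) ∈ I := by rw [htop]; trivial
  rw [hI, Ideal.span, Submodule.mem_span_image_finset_iff_exists_fun] at h1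
  obtain ⟨g', hg'⟩ := h1
  obtain ⟨g, hg⟩ : ∃ g : ι → F[X], ∑ i ∈ s, g i • (f i).map (algebraMap A F) = 1 := by
    refine ⟨fun i => if h : i ∈ s then g' ⟨i, h⟩ else 0, ?_⟩
    rw [← hg', ← Finset.sum_coe_sort]
    refine Finset.sum_congr rfl fun i _ => ?_
    simp only [Finset.coe_mem, dite_true]
  choose c hc h2 using fun i => IsLocalization.integerNormalization_spec (nonZeroDivisors A) (g i)
  refine ⟨fun i => C (∏ j ∈ s.erase i, c j) *
    IsLocalization.integerNormalization (nonZeroDivisors A) (g i), ∏ j ∈ s, c j,
    Finset.prod_ne_zero_iff.2 (fun i _ => nonZeroDivisors.ne_zero (hc i)), ?_⟩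
  apply map_injective (algebraMap A F) hinj
  rw [Polynomial.map_sum, map_C]
  have h3 : ∀ i ∈ s, (C (∏ j ∈ s.erase i, c j) *
      IsLocalization.integerNormalization (nonZeroDivisors A) (g i) * f i).map (algebraMap A F) =
      C (algebraMap A F (∏ j ∈ s, c j)) * (g i • (f i).map (algebraMap A F)) := by
    intro i hi
    rw [Polynomial.map_mul, Polynomial.map_mul, map_C, h2, Algebra.smul_def,
      Polynomial.algebraMap_apply, ← Finset.mul_prod_erase s c hi, map_mul, C_mul, smul_eq_mul]
    ring
  rw [Finset.sum_congr rfl h3, ← Finset.mul_sum, hg, mul_one]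

/-- elimination of the variable `j` from a family of polynomials -/
theorem exists_bezout {K : Type} [Field K] {σ : Type} [Fintype σ] [DecidableEq σ]
    {ι : Type*} [DecidableEq ι] (s : Finset ι) (f : ι → MvPolynomial σ K)
    (hf : ∀ P : MvPolynomial σ K, Irreducible P → ∃ i ∈ s, ¬ P ∣ f i) (j : σ) :
    ∃ (h : ι → MvPolynomial σ K) (R : MvPolynomial σ K), R ≠ 0 ∧ R.degreeOf j = 0 ∧
      ∑ i ∈ s, h i * f i = R := by
  set Φ : MvPolynomial σ K ≃ₐ[K] (MvPolynomial {b // b ≠ j} K)[X] :=
    (MvPolynomial.renameEquiv K (Equiv.optionSubtypeNe j).symm).trans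
      (MvPolynomial.optionEquivLeft K {b // b ≠ j}) with hΦ
  obtain ⟨h, d, hd, hs⟩ := exists_bezout_poly s (fun i => Φ (f i)) (fun P hP => by
    have hP' : Irreducible (Φ.symm P) := (MulEquiv.irreducible_iff Φ.symm.toMulEquiv).2 hP
    obtain ⟨i, hi, hnd⟩ := hf _ hP'
    refine ⟨i, hi, fun h => hnd ?_⟩
    have h1 := (map_dvd_iff Φ.symm).2 h
    rwa [AlgEquiv.symm_apply_apply] at h1)
  refine ⟨fun i => Φ.symm (h i), Φ.symm (C d), ?_, ?_, ?_⟩
  · intro h
    apply hd
    have h1 := congrArg Φ h
    rw [AlgEquiv.apply_symm_apply, map_zero, C_eq_zero] at h1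
    exact h1
  · have h1 : MvPolynomial.optionEquivLeft K {b // b ≠ j}
        (MvPolynomial.rename (Equiv.optionSubtypeNe j).symm (Φ.symm (C d))) = C d := by
      have h2 := Φ.apply_symm_apply (C d)
      exact h2
    rw [MvPolynomial.degreeOf_eq_natDegree, h1, natDegree_C]
  · apply Φ.injective
    rw [AlgEquiv.apply_symm_apply, map_sum, ← hs]
    refine Finset.sum_congr rfl fun i _ => ?_
    rw [map_mul, AlgEquiv.apply_symm_apply]

end Pool.Agent.Helper98.CB
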