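import Pool.Agent.Helper60.CB.Lam3a
import Pool.Agent.Helper98.CB.Win

/-!
# CB, degree 3: the window, closed
-/

set_option autoImplicit false

namespace Pool.Agent.Helper98.CB

open Finset Module NumberField Polynomial Pool.Agent.Helper4.CB Pool.Agent.Helper23.CB
open Pool.Agent.Helper60.CB (exists_coord exists_norm_le hv_mem hv_ne_zero exists_norm_hv_le)

open Classical in
/-- **WIN** -/
theorem win_Lam (K : Type) [Field K] [NumberField K] {n : ℕ} (hn : 0 < n)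
    (B : Basis (Fin n) ℤ (𝓞 K)) (e : (Fin (2 * n) → ℤ) ≃+ 𝓞 K × 𝓞 K) (P : (𝓞 K)[X])
    (hP : P.Monic) (h3 : P.natDegree = 3)
    (hirr : Irreducible (P.map (algebraMap (𝓞 K) K))) (m : ℕ) (hm : m ≠ 0)
    (E a c : ℕ) (hE : 8 * (a + c + 1) ≤ E) : ∃ T0 : ℕ, ∀ T : ℕ, T0 ≤ T →
    ∀ (τ : 𝓞 K × 𝓞 K) (A : Finset (Ideal (𝓞 K) × 𝓞 K)),
    (∀ x ∈ A, x.1.IsPrime ∧ x.1 ≠ ⊥ ∧ P.eval x.2 ∈ x.1 ∧
      Ideal.absNorm x.1 ≤ T ^ (3 * n * E + a) ∧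
      ¬ Rad e (Lam x.1 (x.2 * m)).toAddSubgroup (T ^ (2 * E - c))) →
    (∀ x ∈ A, ∀ y ∈ A, x.1 = y.1 → x.2 - y.2 ∈ x.1 → x = y) →
    ∑ x ∈ A, ((bx e τ (T ^ (2 * E))).filter (fun g => g ∈ Lam x.1 (x.2 * m))).card ≤
      T ^ (3 * n * E + 2 * a + 4 * n * c + 2) :=
  win_of hn B e P hP h3 m (exists_coord B e) (exists_norm_le K B)
    (fun b t ht w hw => hv_mem K P hP m b t ht w hw)
    (fun w hw => hv_ne_zero K P hP (by omega) hirr m hm w hw) (exists_norm_hv_le K B P m)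
    E a c hE

end Pool.Agent.Helper98.CB
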